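import Pool.Agent.Work.MP_a6f1bd_gt.Main

/-!
MP_a6f1bd_gt, Q1: asymptotic rigidity in Toponogov comparison for Busemann functions (affirmative
answer for complete geodesic spaces of curvature between `-1` and `0` in the comparison sense).
-/

namespace Pool.Agent.Results.MP_a6f1bd_gt.BusemannRigidity

open Pool.Agent.Work.MP_a6f1bd_gt

/-- Let `M` be a complete geodesic space satisfying the comparison theorems of Cartan-Alexandrov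
(nonpositive curvature) and of Toponogov (curvature at least `-1`), let `γ`, `γ₁` be rays in `M`
and in hyperbolic `m`-space, `y` and `y₁` points with `|xy| = |x₁y₁|`, the same value `b` of the
Busemann functions and the same angle `θ` at `x = γ(0)` and `x₁ = γ₁(0)`. Then the closed ideal
triangle spanned by `y` and `γ` is totally geodesic and isometric to the hyperbolic one, the three
sides corresponding to the three sides. -/
theorem result {M : Type} [MetricSpace M] [CompleteSpace M] (hG : IsGeodesicSpace M)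
    (hN : IsNonposCurved M) (hT : IsCurvGeNegOne M) {m : ℕ}
    {γ : ℝ → M} (hγ : IsRay γ) {γ₁ : ℝ → Hyp m} (hγ₁ : IsRay γ₁)
    {y : M} (hy : y ≠ γ 0) {y₁ : Hyp m}
    {σ : ℝ → M} (hσ : IsSeg σ (γ 0) y) {σ₁ : ℝ → Hyp m} (hσ₁ : IsSeg σ₁ (γ₁ 0) y₁)
    (hd : dist (γ 0) y = dist (γ₁ 0) y₁)
    {b : ℝ} (hb : IsBusemann γ y b) (hb₁ : IsBusemann γ₁ y₁ b)
    {θ : ℝ} (hθ : IsAngle γ σ θ) (hθ₁ : IsAngle γ₁ σ₁ θ) :
    IsGeodConvex (idealTriangle γ y) ∧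
    ∃ Φ : Hyp m → M,
      Set.BijOn Φ (idealTriangle γ₁ y₁) (idealTriangle γ y) ∧
      (∀ p ∈ idealTriangle γ₁ y₁, ∀ q ∈ idealTriangle γ₁ y₁, dist (Φ p) (Φ q) = dist p q) ∧
      (∀ s ∈ Set.Icc 0 (dist (γ₁ 0) y₁), σ₁ s ∈ idealTriangle γ₁ y₁ ∧ Φ (σ₁ s) = σ s) ∧
      (∀ t, 0 ≤ t → γ₁ t ∈ idealTriangle γ₁ y₁ ∧ Φ (γ₁ t) = γ t) ∧
      ∀ δ : ℝ → M, IsRay δ → δ 0 = y → (∃ K, ∀ t, 0 ≤ t → dist (δ t) (γ t) ≤ K) →
        ∃ δ₁ : ℝ → Hyp m, IsRay δ₁ ∧ δ₁ 0 = y₁ ∧ (∃ K, ∀ t, 0 ≤ t → dist (δ₁ t) (γ₁ t) ≤ K) ∧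
          ∀ t, 0 ≤ t → δ₁ t ∈ idealTriangle γ₁ y₁ ∧ Φ (δ₁ t) = δ t :=
  rigidity hG hN hT hγ hσ hy hγ₁ hσ₁ hd hb hb₁ hθ hθ₁

end Pool.Agent.Results.MP_a6f1bd_gt.BusemannRigidity
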