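import Pool.Agent.Work.MP_a6f1bd_R.Transfer

/-!
MP_a6f1bd_gt, Q1: asymptotic rigidity in Toponogov comparison for Busemann functions, affirmative
answer for Hadamard manifolds of curvature between `-1` and `0`.

By the theorem of Cartan and Hadamard a Hadamard manifold is `ℝ^m` with a complete smooth
Riemannian metric `G` of nonpositive sectional curvature.  Everything (Levi-Civita connection,
curvature, geodesics, Riemannian distance) is defined from the metric tensor, and no theorem of
comparison geometry is assumed.
-/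

namespace Pool.Agent.Results.MP_a6f1bd_gt.HadamardRigidity

open Pool.Agent.Work.MP_a6f1bd_gt Pool.Agent.Work.MP_a6f1bd_M

/-- Let `G` be a complete smooth Riemannian metric on `ℝ^m` with sectional curvatures between `-1`
and `0`, `γ` a unit speed geodesic of `G`, `γ₁` a geodesic ray in real hyperbolic `m`-space, `y` and
`y₁` points with `|xy| = |x₁y₁|`, the same value of the Busemann functions, and the same angle at
`x = γ(0)`, `x₁ = γ₁(0)`.  Then the closed ideal triangle `T = G.tri γ y` contains all the geodesic
segments between its points (it is totally geodesic); there is exactly one geodesic `δ` from `y`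
asymptotic to `γ`; and `T` is isometric to the hyperbolic ideal triangle `T₁`, the sides `xy`, `γ`, `δ`
corresponding to the three sides of `T₁`.  The isometry is `exp_y ∘ ι ∘ log_(y₁)` with a linear
isometric map `ι`, so `T` is contained in the surface `exp_y(P)`, `P` a linear subspace of the tangent
space at `y` of dimension at most 2. -/
theorem result (m : ℕ) (G : Metric m) (hc : G.Complete) (hp : G.Pinched)
    (γ σ : ℝ → E m) (y : E m) (γ₁ σ₁ : ℝ → Hyp m) (y₁ : Hyp m)
    (h : SameData G γ σ y γ₁ σ₁ y₁) :
    (∀ p ∈ G.tri γ y, ∀ q ∈ G.tri γ y, G.seg p q ⊆ G.tri γ y) ∧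
    ∃ (δ : ℝ → E m) (δ₁ : ℝ → Hyp m) (Φ : Hyp m → E m),
      ThirdSide G γ y δ ∧ ThirdSide₁ γ₁ y₁ δ₁ ∧ Matches G γ σ δ y γ₁ σ₁ δ₁ y₁ Φ ∧
      ExpLog G y y₁ (idealTriangle γ₁ y₁) Φ :=
  main m G hc hp γ σ y γ₁ σ₁ y₁ h

end Pool.Agent.Results.MP_a6f1bd_gt.HadamardRigidity
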